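import Mathlib
import Pool.Agent.V11221.SpherCyl

/-!
MP_2b78ec_gt, Q1: the answer is no, for all `n`, `i` and both classes.
-/

namespace Pool.Agent.Results.MP_2b78ec_gt.NoFPreserving

open Pool.Agent.V11221.SpherCyl

theorem result :
    ∀ n : ℕ, 4 ≤ n → ∀ i : ℕ, 2 ≤ i → i ≤ n - 2 →
      ∀ H : Submodule ℝ (E n), Module.finrank ℝ H = i →
      ∀ B : Set (Set (E n)), (B = Kall n ∨ B = Kbody n) →
        ¬ ∃ (F : {K : Set (E n) // K ∈ B} → NNReal) (S : Symm B H),
          StrictlyIncreasing F ∧ Monotonic S ∧ Preserves F S ∧ InvCyl S ∧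
            ¬ ProjInvariant S := by
  rintro n - i - - H - B hB ⟨F, S, -, hm, -, hc, hn⟩
  exact hn (main hB hm hc)

end Pool.Agent.Results.MP_2b78ec_gt.NoFPreserving
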